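import Pool.Agent.N990.RT.Stm

/-!
Project RT, leaf UQE: the ends of `H n` have the same law in all Gibbs states.
-/

set_option autoImplicit false

open MeasureTheory
open Pool.Agent.N988.EA
open Pool.Agent.N990.RT

namespace Pool.Agent.N476.RT

theorem itT_basic (h1 : S_BAS) (β : ℝ) (p : ℕ → Fin 2 × Bool) (n : ℕ) (f : (Bool → Ang) → ℝ)
    (hf : Measurable f) (hb : ∀ τ, 0 ≤ f τ ∧ f τ ≤ 1) (k : ℕ) :
    Measurable (itT β p n f k) ∧ ∀ τ, 0 ≤ itT β p n f k τ ∧ itT β p n f k τ ≤ 1 := by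
  induction k with
  | zero => exact ⟨hf, hb⟩
  | succ k ih =>
    obtain ⟨hm, hbd⟩ := ih
    obtain ⟨-, -, -, hprob, -, hmeas⟩ := h1 β (n + k + 1)
    have hin : Measurable (fun z : (Bool → Ang) × (Vert 2 (n + k + 1) → Ang) =>
        itT β p n f k (fun t => if t = (p (n + k)).2 then z.1 t
          else z.2 (Sum.inl (p (n + k)).1 : Vert 2 (n + k + 1)))) := by
      refine hm.comp (measurable_pi_lambda _ fun t => ?_)
      by_cases ht : t = (p (n + k)).2
      · simp only [if_pos ht]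
        exact (measurable_pi_apply t).comp measurable_fst
      · simp only [if_neg ht]
        exact (measurable_pi_apply _).comp measurable_snd
    refine ⟨?_, fun τ => ?_⟩
    · exact hmeas (Bool → Ang) id _ measurable_id hin
    · have := hprob τ
      change 0 ≤ ∫ σ, itT β p n f k (fun t => if t = (p (n + k)).2 then τ t
          else σ (Sum.inl (p (n + k)).1 : Vert 2 (n + k + 1))) ∂(gib β (n + k + 1) τ) ∧
        ∫ σ, itT β p n f k (fun t => if t = (p (n + k)).2 then τ t
          else σ (Sum.inl (p (n + k)).1 : Vert 2 (n + k + 1))) ∂(gib β (n + k + 1) τ) ≤ 1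
      refine ⟨integral_nonneg fun σ => (hbd _).1, ?_⟩
      refine (integral_mono_of_nonneg (Filter.Eventually.of_forall fun σ => (hbd _).1)
        (integrable_const (1 : ℝ)) (Filter.Eventually.of_forall fun σ => (hbd _).2)).trans ?_
      simp

theorem ends_meas (p : ℕ → Fin 2 × Bool) (n : ℕ) : Measurable (ends p n) :=
  measurable_pi_lambda _ fun _ => measurable_pi_apply _

theorem step_eq (h1 : S_BAS) (h2 : S_TOP) (β : ℝ) (p : ℕ → Fin 2 × Bool)
    (μ : Measure (VInf p → Ang)) (hμ : IsGibbs β p μ) (n : ℕ) (f : (Bool → Ang) → ℝ)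
    (hf : Measurable f) (hb : ∀ τ, 0 ≤ f τ ∧ f τ ≤ 1) (k : ℕ) :
    ∫ ω, f (ends p n ω) ∂μ = ∫ ω, itT β p n f k (ends p (n + k) ω) ∂μ := by
  induction k with
  | zero => rfl
  | succ k ih =>
    rw [ih]
    obtain ⟨hm, hbd⟩ := itT_basic h1 β p n f hf hb k
    exact h2 β p μ hμ (n + k) (itT β p n f k) hm
      ⟨1, fun τ => by rw [abs_of_nonneg (hbd τ).1]; exact (hbd τ).2⟩

theorem t_uqe (h1 : Pool.Agent.N990.RT.S_BAS) (h2 : Pool.Agent.N990.RT.S_TOP)
    (h3 : Pool.Agent.N990.RT.S_OSC) : Pool.Agent.N990.RT.S_UQE := by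
  intro β p hp μ μ' hμ hμ' n f hf hb
  have hP := hμ.prob
  have hP' := hμ'.prob
  have key : ∀ ε : ℝ, 0 < ε → ∃ k : ℕ, ∃ c : ℝ, ∀ (ν : Measure (VInf p → Ang)), IsGibbs β p ν →
      |∫ ω, f (ends p n ω) ∂ν - c| ≤ ε := by
    intro ε hε
    obtain ⟨k, hk⟩ := h3 β p hp n f hf hb ε hε
    obtain ⟨hm, hbd⟩ := itT_basic h1 β p n f hf hb k
    refine ⟨k, itT β p n f k (fun _ => 0), fun ν hν => ?_⟩
    have hPν := hν.prob
    rw [step_eq h1 h2 β p ν hν n f hf hb k]
    have hint : Integrable (fun ω => itT β p n f k (ends p (n + k) ω)) ν := by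
      refine Integrable.of_bound (hm.comp (ends_meas p (n + k))).aestronglyMeasurable 1
        (Filter.Eventually.of_forall fun ω => ?_)
      rw [Real.norm_eq_abs, abs_of_nonneg (hbd _).1]
      exact (hbd _).2
    have e1 : ∫ ω, itT β p n f k (ends p (n + k) ω) ∂ν ≤
        ∫ _ω, (itT β p n f k (fun _ => 0) + ε) ∂ν :=
      integral_mono hint (integrable_const _) fun ω => hk _ _
    have e2 : ∫ _ω, (itT β p n f k (fun _ => 0) - ε) ∂ν ≤
        ∫ ω, itT β p n f k (ends p (n + k) ω) ∂ν :=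
      integral_mono (integrable_const _) hint fun ω => by
        have := hk (fun _ => 0) (ends p (n + k) ω)
        change itT β p n f k (fun _ => 0) - ε ≤ itT β p n f k (ends p (n + k) ω)
        linarith
    rw [integral_const, probReal_univ, one_smul] at e1 e2
    rw [abs_le]
    constructor <;> linarith
  refine eq_of_forall_dist_le fun ε hε => ?_
  obtain ⟨k, c, hc⟩ := key (ε / 2) (by positivity)
  have e1 := abs_le.1 (hc μ hμ)
  have e2 := abs_le.1 (hc μ' hμ')
  rw [Real.dist_eq, abs_le]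
  constructor <;> linarith [e1.1, e1.2, e2.1, e2.2]

end Pool.Agent.N476.RT
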